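import Pool.Agent.TH421.DF.Main
import Pool.Agent.W366.RW.En

/-!
Project AC (helper421): the energy on the set where a function takes its values in a small set.
-/

set_option autoImplicit false
open MeasureTheory Filter Topology Complex
open scoped ContDiff ENNReal

namespace Pool.Agent.TH421.AC

open Pool.Agent.W745.RW Pool.Agent.TH294.RS Pool.Agent.TH294.RG Pool.Agent.TH421.DF

noncomputable section

variable {B : Set ℂ} {h : ℕ → ℝ}

lemma rsd {F : ℂ → ℝ} (hB : IsOpen B) (hF : ContDiffOn ℝ ∞ F B) (v : ℂ) :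
    ContDiffOn ℝ ∞ (fun z => fderiv ℝ F z v) B := Pool.Agent.W98.RW.cd_fderiv hB hF v

lemma rdA {F : ℂ → ℝ} (hB : IsOpen B) (hF : ContDiffOn ℝ ∞ F B) {z : ℂ} (hz : z ∈ B) :
    DifferentiableAt ℝ F z := (hF.contDiffAt (hB.mem_nhds hz)).differentiableAt (by simp)

/-- real semiclassical derivative -/
def rd (h : ℕ → ℝ) (v : ℂ) (H : ℕ → ℂ → ℝ) (n : ℕ) (z : ℂ) : ℝ := h n * fderiv ℝ (H n) z v

/-- the complexification -/
def cx (H : ℕ → ℂ → ℝ) (n : ℕ) (z : ℂ) : ℂ := (H n z : ℂ)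

lemma hd_cx (hB : IsOpen B) {H : ℕ → ℂ → ℝ} (hH : ∀ n, ContDiffOn ℝ ∞ (H n) B) (v : ℂ) (n : ℕ)
    {z : ℂ} (hz : z ∈ B) : hd h v (cx H) n z = cx (rd h v H) n z := by
  show (h n : ℂ) * fderiv ℝ (fun w => (H n w : ℂ)) z v = ((h n * fderiv ℝ (H n) z v : ℝ) : ℂ)
  rw [fd_re (rdA hB (hH n) hz) v]
  push_cast; ring

lemma rd_sm (hB : IsOpen B) {H : ℕ → ℂ → ℝ} (hH : ∀ n, ContDiffOn ℝ ∞ (H n) B) (v : ℂ) (n : ℕ) :
    ContDiffOn ℝ ∞ (rd h v H n) B := contDiffOn_const.mul (rsd hB (hH n) v)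

lemma mk_rd (hB : IsOpen B) {H : ℕ → ℂ → ℝ} (hH : ∀ n, ContDiffOn ℝ ∞ (H n) B) {k : ℕ}
    (hM : MK2 B h (k + 1) (cx H)) : MK2 B h k (cx (rd h 1 H)) ∧ MK2 B h k (cx (rd h I H)) :=
  ⟨hM.2.1.congr hB fun n _ hz => (hd_cx hB hH 1 n hz).symm,
    hM.2.2.congr hB fun n _ hz => (hd_cx hB hH I n hz).symm⟩

lemma lb_re {H : ℕ → ℂ → ℝ} (hL : LB B 2 (cx H)) {K : Set ℂ} (hK : IsCompact K) (hKB : K ⊆ B) :
    ∃ C : ℝ, 0 ≤ C ∧ ∀ᶠ n in atTop, ∫ z in K, H n z ^ 2 ≤ C := by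
  obtain ⟨C, hC⟩ := hL.bd K hK hKB
  refine ⟨|C|, abs_nonneg C, hC.mono fun n hn => ?_⟩
  have e : ∫ z in K, H n z ^ 2 = ∫ z in K, ‖cx H n z‖ ^ 2 := by
    congr 1; funext z
    simp only [cx, Complex.norm_real, Real.norm_eq_abs, sq_abs]
  rw [e]
  exact hn.trans (le_abs_self C)

/-- integrals against functions supported in a compact set -/
lemma out_int {S : Set ℂ} {F : ℂ → ℝ} (h0 : ∀ z, z ∉ S → F z = 0) :
    ∫ z, F z = ∫ z in S, F z :=
  (setIntegral_eq_integral_of_forall_compl_eq_zero h0).symm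

lemma rint {S : Set ℂ} (hS : IsCompact S) {F : ℂ → ℝ} (hF : ContinuousOn F S)
    (h0 : ∀ z, z ∉ S → F z = 0) : Integrable F := by
  have h1 : IntegrableOn F S := hF.integrableOn_compact hS
  refine (integrableOn_iff_integrable_of_support_subset fun z hz => ?_).1 h1
  by_contra hzS
  exact hz (h0 z hzS)

/-- a bound for `∫ φ |F|` by the `L²` norm on the support -/
lemma l1_bd {S : Set ℂ} (hS : IsCompact S) {φ : ℂ → ℝ} (hφ : ContinuousOn φ S) {M : ℝ}
    (hM : ∀ z ∈ S, |φ z| ≤ M) (hM0 : 0 ≤ M) (h0 : ∀ z, z ∉ S → φ z = 0) {F : ℂ → ℝ}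
    (hF : ContinuousOn F S) {C : ℝ} (hC : ∫ z in S, F z ^ 2 ≤ C) :
    ∫ z, |φ z * F z| ≤ M * ((∫ z in S, (1 : ℝ)) + C) := by
  rw [out_int (S := S) (fun z hz => by rw [h0 z hz]; simp)]
  refine intK_lin hS hM0 ((hφ.mul hF).abs) continuousOn_const (hF.pow 2) (fun z hz => ?_)
    le_rfl hC
  show |φ z * F z| ≤ M * (1 + F z ^ 2)
  rw [abs_mul]
  have h1 := hM z hz
  have h2 : |F z| ≤ 1 + F z ^ 2 := by
    rw [← sq_abs (F z)]
    nlinarith [sq_nonneg (|F z| - 1)]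
  exact mul_le_mul h1 h2 (abs_nonneg _) hM0

/-- the primitive -/
def Pr (g : ℝ → ℝ) (x : ℝ) : ℝ := ∫ t in (0 : ℝ)..x, g t

lemma Pr_d {g : ℝ → ℝ} (hg : ContDiff ℝ ∞ g) (x : ℝ) : HasDerivAt (Pr g) (g x) x :=
  intervalIntegral.integral_hasDerivAt_right (hg.continuous.intervalIntegrable _ _)
    (hg.continuous.stronglyMeasurableAtFilter _ _) hg.continuous.continuousAt

lemma Pr_sm {g : ℝ → ℝ} (hg : ContDiff ℝ ∞ g) : ContDiff ℝ ∞ (Pr g) := by
  rw [contDiff_infty_iff_deriv]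
  refine ⟨fun x => (Pr_d hg x).differentiableAt, ?_⟩
  have : deriv (Pr g) = g := funext fun x => (Pr_d hg x).deriv
  rw [this]; exact hg

/-- **The energy principle.** -/
theorem energy (hB : IsOpen B) (hp : ∀ n, 0 < h n) (hh : Tendsto h atTop (𝓝 0))
    {H : ℕ → ℂ → ℝ} (hH : ∀ n, ContDiffOn ℝ ∞ (H n) B) (hM : MK2 B h 2 (cx H))
    {φ : ℂ → ℝ} (hφ : TF B φ) {v : ℂ} (hv : v = 1 ∨ v = I) :
    ∃ C : ℝ, 0 ≤ C ∧ ∀ᶠ n in atTop, ∀ (g : ℝ → ℝ) (η : ℝ), ContDiff ℝ ∞ g →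
      (∀ x, |Pr g x| ≤ η) → ∫ z, φ z * (g (H n z) * rd h v H n z ^ 2) ≤ η * C := by
  obtain ⟨S, hS⟩ : ∃ S : Set ℂ, S = tsupport φ := ⟨_, rfl⟩
  have hSc : IsCompact S := by rw [hS]; exact hφ.2.1
  have hSB : S ⊆ B := by rw [hS]; exact hφ.2.2
  have z0 : ∀ z, z ∉ S → φ z = 0 := fun z hz => image_eq_zero_of_notMem_tsupport (by rwa [hS] at hz)
  have z1 : ∀ z, z ∉ S → fderiv ℝ φ z v = 0 := fun z hz => by
    rw [fderiv_of_notMem_tsupport ℝ (by rwa [hS] at hz)]; rfl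
  have cφ : Continuous φ := hφ.1.continuous
  have cφ' : Continuous (fun z => fderiv ℝ φ z v) :=
    ((hφ.1.fderiv_right (m := ∞) le_rfl).clm_apply contDiff_const).continuous
  obtain ⟨M, hM1⟩ := hSc.exists_bound_of_continuousOn cφ.continuousOn
  obtain ⟨M', hM2⟩ := hSc.exists_bound_of_continuousOn cφ'.continuousOn
  have r1 : MK2 B h 1 (cx (rd h v H)) := by
    rcases hv with rfl | rfl
    · exact (mk_rd hB hH hM).1
    · exact (mk_rd hB hH hM).2
  have r2 : MK2 B h 0 (cx (rd h v (rd h v H))) := by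
    rcases hv with rfl | rfl
    · exact (mk_rd hB (rd_sm hB hH 1) r1).1
    · exact (mk_rd hB (rd_sm hB hH I) r1).2
  obtain ⟨C1, hC1, b1⟩ := lb_re r1.lb hSc hSB
  obtain ⟨C2, hC2, b2⟩ := lb_re r2.lb hSc hSB
  obtain ⟨A, hA⟩ : ∃ A : ℝ, A = ∫ z in S, (1 : ℝ) := ⟨_, rfl⟩
  have A0 : 0 ≤ A := by rw [hA]; exact integral_nonneg fun z => zero_le_one
  refine ⟨|M| * (A + C2) + |M'| * (A + C1), by positivity, ?_⟩
  filter_upwards [b1, b2, ev_h1 hh] with n b1 b2 h1 g η hg hη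
  have hη0 : 0 ≤ η := (abs_nonneg _).trans (hη 0)
  have sH := hH n
  have sH1 := rsd hB sH v
  obtain ⟨U, hU⟩ : ∃ U : ℂ → ℝ, U = fun z => φ z * (Pr g (H n z) * fderiv ℝ (H n) z v) := ⟨_, rfl⟩
  have sP : ContDiffOn ℝ ∞ (fun z => Pr g (H n z)) B := (Pr_sm hg).comp_contDiffOn sH
  have sU : ContDiffOn ℝ ∞ U B := by
    rw [hU]; exact hφ.1.contDiffOn.mul (sP.mul sH1)
  have zU : ∀ z, z ∉ S → U z = 0 := fun z hz => by
    rw [hU]; show φ z * _ = 0; rw [z0 z hz, zero_mul]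
  have nhU : ∀ z, z ∉ S → U =ᶠ[𝓝 z] fun _ => 0 := by
    intro z hz
    filter_upwards [hSc.isClosed.isOpen_compl.mem_nhds (hz : z ∈ Sᶜ)] with w hw
    exact zU w hw
  have gU : ContDiff ℝ ∞ U := by
    refine contDiff_iff_contDiffAt.2 fun w => ?_
    by_cases hw : w ∈ B
    · exact sU.contDiffAt (hB.mem_nhds hw)
    · exact contDiffAt_const.congr_of_eventuallyEq (nhU w fun h => hw (hSB h))
  obtain ⟨iU, jU⟩ := Pool.Agent.W366.RW.int_zero U gU (HasCompactSupport.intro hSc zU) v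
  have key : ∀ z, φ z * (g (H n z) * rd h v H n z ^ 2) = h n ^ 2 * fderiv ℝ U z v -
      φ z * (Pr g (H n z) * rd h v (rd h v H) n z) -
      (fderiv ℝ φ z v) * (h n * (Pr g (H n z) * rd h v H n z)) := by
    intro z
    by_cases hz : z ∈ B
    · have d1 : HasFDerivAt φ (fderiv ℝ φ z) z :=
        (hφ.1.differentiable (by simp) z).hasFDerivAt
      have d2 : HasFDerivAt (H n) (fderiv ℝ (H n) z) z := (rdA hB sH hz).hasFDerivAt
      have d3 : HasFDerivAt (fun w => Pr g (H n w)) (g (H n z) • fderiv ℝ (H n) z) z :=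
        (Pr_d hg (H n z)).comp_hasFDerivAt z d2
      have d4 : HasFDerivAt (fun w => fderiv ℝ (H n) w v)
          (fderiv ℝ (fun w => fderiv ℝ (H n) w v) z) z := (rdA hB sH1 hz).hasFDerivAt
      have d5 := (d1.mul (d3.mul d4)).fderiv
      have e1 : fderiv ℝ U z v = φ z * (Pr g (H n z) * fderiv ℝ (fun w => fderiv ℝ (H n) w v) z v +
          fderiv ℝ (H n) z v * (g (H n z) * fderiv ℝ (H n) z v)) +
          (Pr g (H n z) * fderiv ℝ (H n) z v) * fderiv ℝ φ z v := by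
        rw [hU]
        have e3 := congrArg (fun L : ℂ →L[ℝ] ℝ => L v) d5
        refine Eq.trans e3 ?_
        simp only [add_apply, smul_apply, smul_eq_mul, Pi.mul_apply]
        try ring
      have e2 : rd h v (rd h v H) n z = h n ^ 2 * fderiv ℝ (fun w => fderiv ℝ (H n) w v) z v := by
        show h n * fderiv ℝ (fun w => h n * fderiv ℝ (H n) w v) z v = _
        rw [fderiv_const_mul (rdA hB sH1 hz)]
        simp only [smul_apply, smul_eq_mul]; ring
      rw [e1, e2]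
      simp only [rd]; ring
    · have hzS : z ∉ S := fun h => hz (hSB h)
      rw [z0 z hzS, z1 z hzS, (nhU z hzS).fderiv_eq]; simp
  have cP : ContinuousOn (fun z => Pr g (H n z)) S := sP.continuousOn.mono hSB
  have cr : ContinuousOn (rd h v H n) S := (rd_sm hB hH v n).continuousOn.mono hSB
  have crr : ContinuousOn (rd h v (rd h v H) n) S :=
    (rd_sm hB (rd_sm hB hH v) v n).continuousOn.mono hSB
  have i2 : Integrable (fun z => φ z * (Pr g (H n z) * rd h v (rd h v H) n z)) :=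
    rint hSc (cφ.continuousOn.mul (cP.mul crr)) fun z hz => by rw [z0 z hz, zero_mul]
  have i3 : Integrable (fun z => (fderiv ℝ φ z v) * (h n * (Pr g (H n z) * rd h v H n z))) :=
    rint hSc (cφ'.continuousOn.mul (continuousOn_const.mul (cP.mul cr))) fun z hz => by
      rw [z1 z hz, zero_mul]
  have i4 : Integrable (fun z => |φ z * rd h v (rd h v H) n z|) :=
    rint hSc (cφ.continuousOn.mul crr).abs fun z hz => by rw [z0 z hz]; simp
  have i5 : Integrable (fun z => |fderiv ℝ φ z v * rd h v H n z|) :=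
    rint hSc (cφ'.continuousOn.mul cr).abs fun z hz => by rw [z1 z hz]; simp
  have tot : ∫ z, φ z * (g (H n z) * rd h v H n z ^ 2) =
      - (∫ z, φ z * (Pr g (H n z) * rd h v (rd h v H) n z)) -
      ∫ z, (fderiv ℝ φ z v) * (h n * (Pr g (H n z) * rd h v H n z)) := by
    simp only [key]
    have k1 : Integrable (fun z => h n ^ 2 * fderiv ℝ U z v) := iU.const_mul _
    have k2 : Integrable (fun z => h n ^ 2 * fderiv ℝ U z v -
      φ z * (Pr g (H n z) * rd h v (rd h v H) n z)) := k1.sub i2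
    rw [integral_sub k2 i3, integral_sub k1 i2, integral_const_mul, jU, mul_zero, zero_sub]
  have q1 : -(∫ z, φ z * (Pr g (H n z) * rd h v (rd h v H) n z)) ≤
      η * ∫ z, |φ z * rd h v (rd h v H) n z| := by
    rw [← integral_neg, ← integral_const_mul]
    refine integral_mono i2.neg (i4.const_mul η) fun z => ?_
    show -(φ z * (Pr g (H n z) * rd h v (rd h v H) n z)) ≤ η * |φ z * rd h v (rd h v H) n z|
    refine (neg_le_abs _).trans ?_
    have : φ z * (Pr g (H n z) * rd h v (rd h v H) n z) =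
        Pr g (H n z) * (φ z * rd h v (rd h v H) n z) := by ring
    rw [this, abs_mul]
    exact mul_le_mul_of_nonneg_right (hη _) (abs_nonneg _)
  have q2 : -(∫ z, (fderiv ℝ φ z v) * (h n * (Pr g (H n z) * rd h v H n z))) ≤
      η * ∫ z, |fderiv ℝ φ z v * rd h v H n z| := by
    rw [← integral_neg, ← integral_const_mul]
    refine integral_mono i3.neg (i5.const_mul η) fun z => ?_
    show -((fderiv ℝ φ z v) * (h n * (Pr g (H n z) * rd h v H n z))) ≤
      η * |fderiv ℝ φ z v * rd h v H n z|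
    refine (neg_le_abs _).trans ?_
    have : (fderiv ℝ φ z v) * (h n * (Pr g (H n z) * rd h v H n z)) =
        (h n * Pr g (H n z)) * (fderiv ℝ φ z v * rd h v H n z) := by ring
    rw [this, abs_mul]
    refine mul_le_mul_of_nonneg_right ?_ (abs_nonneg _)
    rw [abs_mul, abs_of_pos (hp n)]
    have := hη (H n z)
    nlinarith [abs_nonneg (Pr g (H n z)), (hp n).le]
  have q3 := l1_bd hSc cφ.continuousOn (fun z hz => (hM1 z hz).trans (le_abs_self M))
    (abs_nonneg M) z0 crr b2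
  have q4 := l1_bd hSc cφ'.continuousOn (fun z hz => (hM2 z hz).trans (le_abs_self M'))
    (abs_nonneg M') z1 cr b1
  rw [← hA] at q3 q4
  rw [tot]
  have q5 := mul_le_mul_of_nonneg_left q3 hη0
  have q6 := mul_le_mul_of_nonneg_left q4 hη0
  linarith

end

end Pool.Agent.TH421.AC
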