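import Pool.Agent.TH421.AC.En

/-!
Project AC (helper421): the mass of `|u|` on the set where `u` takes its values in a small set.
-/

set_option autoImplicit false
open MeasureTheory Filter Topology Complex
open scoped ContDiff ENNReal

namespace Pool.Agent.TH421.AC

open Pool.Agent.W745.RW Pool.Agent.TH294.RS Pool.Agent.TH294.RG Pool.Agent.TH421.DF

noncomputable section

variable {B : Set ℂ} {h : ℕ → ℝ}

lemma exists_theta : ∃ (θ : ℝ → ℝ) (C : ℝ), ContDiff ℝ ∞ θ ∧ (∀ x, 0 ≤ θ x) ∧ (∀ x, θ x ≤ 1) ∧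
    (∀ x, |x| ≤ 1 → θ x = 1) ∧ 0 ≤ C ∧ ∀ x, |Pr θ x| ≤ C := by
  let f : ContDiffBump (0 : ℝ) := ⟨1, 2, one_pos, one_lt_two⟩
  have cf : Continuous (fun x => f x) := f.continuous
  have hi : Integrable (fun x => |f x|) :=
    (cf.integrable_of_hasCompactSupport f.hasCompactSupport).abs
  refine ⟨f, ∫ x, |f x|, f.contDiff, fun x => f.nonneg, fun x => f.le_one, fun x hx => ?_,
    integral_nonneg fun x => abs_nonneg _, fun x => ?_⟩
  · apply f.one_of_mem_closedBall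
    rw [mem_closedBall_zero_iff, Real.norm_eq_abs]; exact hx
  · have h1 := intervalIntegral.norm_integral_le_integral_norm_uIoc (f := fun x => f x)
      (a := 0) (b := x) (μ := volume)
    refine h1.trans ?_
    exact setIntegral_le_integral hi (ae_of_all _ fun x => abs_nonneg _)

lemma Pr_scale {θ : ℝ → ℝ} {C s : ℝ} (hs : 0 < s) (hC : ∀ x, |Pr θ x| ≤ C) (x : ℝ) :
    |Pr (fun t => θ (t / s)) x| ≤ s * C := by
  have e : Pr (fun t => θ (t / s)) x = s * Pr θ (x / s) := by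
    unfold Pr
    rw [intervalIntegral.integral_comp_div _ hs.ne', zero_div, smul_eq_mul]
  rw [e, abs_mul, abs_of_pos hs]
  exact mul_le_mul_of_nonneg_left (hC _) hs.le

/-- the bound for one second derivative -/
theorem one_dir (hB : IsOpen B) (hp : ∀ n, 0 < h n) (hh : Tendsto h atTop (𝓝 0))
    {u : ℕ → ℂ → ℝ} (hu : ∀ n, ContDiffOn ℝ ∞ (u n) B) (hM : MK2 B h 3 (cx u))
    {φ : ℂ → ℝ} (hφ : TF B φ) (hφ0 : ∀ z, 0 ≤ φ z) {v : ℂ} (hv : v = 1 ∨ v = I) :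
    ∃ C : ℝ, 0 ≤ C ∧ ∀ᶠ n in atTop, ∀ (g : ℝ → ℝ) (e : ℝ), ContDiff ℝ ∞ g → (∀ x, 0 ≤ g x) →
      (∀ x, g x ≤ 1) → 0 < e → (∀ x, |Pr g x| ≤ e ^ 6) →
      ∫ z, φ z * (g (u n z) * |rd h v (rd h v u) n z|) ≤ e * C := by
  obtain ⟨θ, Cθ, sθ, θ0, θ1, θe, Cθ0, hCθ⟩ := exists_theta
  obtain ⟨S, hS⟩ : ∃ S : Set ℂ, S = tsupport φ := ⟨_, rfl⟩
  have hSc : IsCompact S := by rw [hS]; exact hφ.2.1
  have hSB : S ⊆ B := by rw [hS]; exact hφ.2.2
  have z0 : ∀ z, z ∉ S → φ z = 0 := fun z hz => image_eq_zero_of_notMem_tsupport (by rwa [hS] at hz)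
  have cφ : Continuous φ := hφ.1.continuous
  obtain ⟨M, hM1⟩ := hSc.exists_bound_of_continuousOn cφ.continuousOn
  have r1 : MK2 B h 2 (cx (rd h v u)) := by
    rcases hv with rfl | rfl
    · exact (mk_rd hB hu hM).1
    · exact (mk_rd hB hu hM).2
  have s1 := rd_sm (h := h) hB hu v
  have r2 : MK2 B h 1 (cx (rd h v (rd h v u))) := by
    rcases hv with rfl | rfl
    · exact (mk_rd hB s1 r1).1
    · exact (mk_rd hB s1 r1).2
  obtain ⟨C1, C10, E1⟩ := energy hB hp hh hu hM.down hφ hv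
  obtain ⟨C2, C20, E2⟩ := energy hB hp hh s1 r1 hφ hv
  obtain ⟨C3, C30, E3⟩ := lb_re r2.lb hSc hSB
  obtain ⟨A, hA⟩ : ∃ A : ℝ, A = ∫ z, φ z := ⟨_, rfl⟩
  have A0 : 0 ≤ A := by rw [hA]; exact integral_nonneg hφ0
  refine ⟨(A + Cθ * C2 + |M| * C3 + C1) / 2, by positivity, ?_⟩
  filter_upwards [E1, E2, E3] with n E1 E2 E3 g e hg g0 g1 he hge
  have cu : ContinuousOn (u n) S := (hu n).continuousOn.mono hSB
  have cW : ContinuousOn (rd h v u n) S := (s1 n).continuousOn.mono hSB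
  have cY : ContinuousOn (rd h v (rd h v u) n) S := (rd_sm hB s1 v n).continuousOn.mono hSB
  have cg : ContinuousOn (fun z => g (u n z)) S := hg.continuous.comp_continuousOn cu
  have cθ : ContinuousOn (fun z => θ (rd h v u n z / e ^ 2)) S :=
    sθ.continuous.comp_continuousOn (cW.div_const _)
  have F1 := E1 g (e ^ 6) hg hge
  have F2 := E2 (fun t => θ (t / e ^ 2)) (e ^ 2 * Cθ)
    (sθ.comp (contDiff_id.div_const _)) (Pr_scale (by positivity) hCθ)
  have ig : Integrable (fun z => φ z * (g (u n z) * |rd h v (rd h v u) n z|)) :=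
    rint hSc (cφ.continuousOn.mul (cg.mul cY.abs)) fun z hz => by rw [z0 z hz, zero_mul]
  have i0 : Integrable φ := cφ.integrable_of_hasCompactSupport hφ.2.1
  have i1 : Integrable (fun z => φ z * (g (u n z) * rd h v u n z ^ 2)) :=
    rint hSc (cφ.continuousOn.mul (cg.mul (cW.pow 2))) fun z hz => by rw [z0 z hz, zero_mul]
  have i2 : Integrable (fun z => φ z * (θ (rd h v u n z / e ^ 2) *
      rd h v (rd h v u) n z ^ 2)) :=
    rint hSc (cφ.continuousOn.mul (cθ.mul (cY.pow 2))) fun z hz => by rw [z0 z hz, zero_mul]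
  have i3 : Integrable (fun z => φ z * rd h v (rd h v u) n z ^ 2) :=
    rint hSc (cφ.continuousOn.mul (cY.pow 2)) fun z hz => by rw [z0 z hz, zero_mul]
  have F3 : ∫ z, φ z * rd h v (rd h v u) n z ^ 2 ≤ |M| * C3 := by
    rw [out_int (S := S) (fun z hz => by rw [z0 z hz, zero_mul])]
    refine intK_c hSc (abs_nonneg M) (cφ.continuousOn.mul (cY.pow 2)) (cY.pow 2)
      (fun z hz => ?_) E3
    show φ z * rd h v (rd h v u) n z ^ 2 ≤ |M| * rd h v (rd h v u) n z ^ 2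
    exact mul_le_mul_of_nonneg_right ((le_abs_self _).trans ((hM1 z hz).trans (le_abs_self M)))
      (sq_nonneg _)
  have pt : ∀ z, φ z * (g (u n z) * |rd h v (rd h v u) n z|) ≤
      (e / 2) * φ z + (1 / (2 * e)) * (φ z * (θ (rd h v u n z / e ^ 2) *
        rd h v (rd h v u) n z ^ 2)) + (e / 2) * (φ z * rd h v (rd h v u) n z ^ 2) +
      (1 / (2 * e ^ 5)) * (φ z * (g (u n z) * rd h v u n z ^ 2)) := by
    intro z
    obtain ⟨Y, hY⟩ : ∃ Y : ℝ, Y = rd h v (rd h v u) n z := ⟨_, rfl⟩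
    obtain ⟨W, hW⟩ : ∃ W : ℝ, W = rd h v u n z := ⟨_, rfl⟩
    obtain ⟨G, hG⟩ : ∃ G : ℝ, G = g (u n z) := ⟨_, rfl⟩
    obtain ⟨P, hP⟩ : ∃ P : ℝ, P = θ (W / e ^ 2) := ⟨_, rfl⟩
    rw [← hY, ← hW, ← hG, ← hP]
    have G0 : 0 ≤ G := by rw [hG]; exact g0 _
    have G1 : G ≤ 1 := by rw [hG]; exact g1 _
    have P0 : 0 ≤ P := by rw [hP]; exact θ0 _
    have P1 : P ≤ 1 := by rw [hP]; exact θ1 _
    have PW : 1 - P ≤ |W| / e ^ 2 := by
      by_cases hw : |W / e ^ 2| ≤ 1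
      · rw [hP, θe _ hw, sub_self]; positivity
      · have h1 : |W / e ^ 2| = |W| / e ^ 2 := by
          rw [abs_div, abs_of_pos (by positivity : (0 : ℝ) < e ^ 2)]
        rw [h1] at hw
        linarith [not_le.1 hw]
    have y0 := abs_nonneg Y
    have w0 := abs_nonneg W
    have yy : |Y| ^ 2 = Y ^ 2 := sq_abs Y
    have ww : |W| ^ 2 = W ^ 2 := sq_abs W
    -- first part
    have a1 : G * (P * |Y|) ≤ e / 2 + (1 / (2 * e)) * (P * Y ^ 2) := by
      have b1 : |Y| ≤ e / 2 + (1 / (2 * e)) * Y ^ 2 := by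
        have : 0 ≤ (1 / (2 * e)) * (|Y| - e) ^ 2 := by positivity
        have e1 : (1 / (2 * e)) * (|Y| - e) ^ 2 = (1 / (2 * e)) * Y ^ 2 - |Y| + e / 2 := by
          rw [← yy]; field_simp; ring
        linarith
      have b2 : P * |Y| ≤ P * (e / 2 + (1 / (2 * e)) * Y ^ 2) := mul_le_mul_of_nonneg_left b1 P0
      have b3 : P * (e / 2) ≤ e / 2 := by nlinarith
      have b4 : G * (P * |Y|) ≤ P * |Y| := by nlinarith [mul_nonneg P0 y0]
      have b5 : P * (e / 2 + (1 / (2 * e)) * Y ^ 2) =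
        P * (e / 2) + (1 / (2 * e)) * (P * Y ^ 2) := by ring
      linarith
    -- second part
    have a2 : G * ((1 - P) * |Y|) ≤ (e / 2) * Y ^ 2 + (1 / (2 * e ^ 5)) * (G * W ^ 2) := by
      have b1 : |W| / e ^ 2 * |Y| ≤ (e / 2) * Y ^ 2 + (1 / (2 * e ^ 5)) * W ^ 2 := by
        have : 0 ≤ (1 / (2 * e ^ 5)) * (|W| - e ^ 3 * |Y|) ^ 2 := by positivity
        have e1 : (1 / (2 * e ^ 5)) * (|W| - e ^ 3 * |Y|) ^ 2 =
            (1 / (2 * e ^ 5)) * W ^ 2 - |W| / e ^ 2 * |Y| + (e / 2) * Y ^ 2 := by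
          rw [← yy, ← ww]; field_simp; ring
        linarith
      have b2 : (1 - P) * |Y| ≤ |W| / e ^ 2 * |Y| := mul_le_mul_of_nonneg_right PW y0
      have b3 : G * ((1 - P) * |Y|) ≤ G * ((e / 2) * Y ^ 2 + (1 / (2 * e ^ 5)) * W ^ 2) :=
        mul_le_mul_of_nonneg_left (b2.trans b1) G0
      have b4 : G * ((e / 2) * Y ^ 2) ≤ (e / 2) * Y ^ 2 := by
        have : 0 ≤ (e / 2) * Y ^ 2 := by positivity
        nlinarith
      have b5 : G * ((e / 2) * Y ^ 2 + (1 / (2 * e ^ 5)) * W ^ 2) =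
        G * ((e / 2) * Y ^ 2) + (1 / (2 * e ^ 5)) * (G * W ^ 2) := by ring
      linarith
    have a3 : G * |Y| ≤ e / 2 + (1 / (2 * e)) * (P * Y ^ 2) + (e / 2) * Y ^ 2 +
        (1 / (2 * e ^ 5)) * (G * W ^ 2) := by
      have : G * |Y| = G * (P * |Y|) + G * ((1 - P) * |Y|) := by ring
      linarith
    have := mul_le_mul_of_nonneg_left a3 (hφ0 z)
    linarith
  have j1 : Integrable (fun z => (e / 2) * φ z) := i0.const_mul _
  have j2 : Integrable (fun z => (1 / (2 * e)) * (φ z * (θ (rd h v u n z / e ^ 2) *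
        rd h v (rd h v u) n z ^ 2))) := i2.const_mul _
  have j3 : Integrable (fun z => (e / 2) * (φ z * rd h v (rd h v u) n z ^ 2)) := i3.const_mul _
  have j4 : Integrable (fun z => (1 / (2 * e ^ 5)) * (φ z * (g (u n z) * rd h v u n z ^ 2))) :=
    i1.const_mul _
  have j12 := j1.add j2
  have j123 := j12.add j3
  have tot := integral_mono ig (j123.add j4) pt
  have ev : ∫ z, ((fun z => (e / 2) * φ z + (1 / (2 * e)) * (φ z * (θ (rd h v u n z / e ^ 2) *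
        rd h v (rd h v u) n z ^ 2)) + (e / 2) * (φ z * rd h v (rd h v u) n z ^ 2) +
      (1 / (2 * e ^ 5)) * (φ z * (g (u n z) * rd h v u n z ^ 2))) z) =
      (e / 2) * (∫ z, φ z) + (1 / (2 * e)) * (∫ z, φ z * (θ (rd h v u n z / e ^ 2) *
        rd h v (rd h v u) n z ^ 2)) + (e / 2) * (∫ z, φ z * rd h v (rd h v u) n z ^ 2) +
      (1 / (2 * e ^ 5)) * (∫ z, φ z * (g (u n z) * rd h v u n z ^ 2)) := by
    have k3 : Integrable (fun z => (e / 2) * φ z + (1 / (2 * e)) * (φ z *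
      (θ (rd h v u n z / e ^ 2) * rd h v (rd h v u) n z ^ 2))) := j12
    have k4 : Integrable (fun z => (e / 2) * φ z + (1 / (2 * e)) * (φ z *
      (θ (rd h v u n z / e ^ 2) * rd h v (rd h v u) n z ^ 2)) +
      (e / 2) * (φ z * rd h v (rd h v u) n z ^ 2)) := j123
    beta_reduce
    rw [integral_add k4 j4, integral_add k3 j3, integral_add j1 j2, integral_const_mul,
      integral_const_mul, integral_const_mul, integral_const_mul]
  have tot2 : ∫ z, φ z * (g (u n z) * |rd h v (rd h v u) n z|) ≤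
      (e / 2) * (∫ z, φ z) + (1 / (2 * e)) * (∫ z, φ z * (θ (rd h v u n z / e ^ 2) *
        rd h v (rd h v u) n z ^ 2)) + (e / 2) * (∫ z, φ z * rd h v (rd h v u) n z ^ 2) +
      (1 / (2 * e ^ 5)) * (∫ z, φ z * (g (u n z) * rd h v u n z ^ 2)) := by
    rw [← ev]; exact tot
  rw [← hA] at tot2
  have t2 : (1 / (2 * e)) * (∫ z, φ z * (θ (rd h v u n z / e ^ 2) *
        rd h v (rd h v u) n z ^ 2)) ≤ (1 / (2 * e)) * (e ^ 2 * Cθ * C2) :=
    mul_le_mul_of_nonneg_left F2 (by positivity)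
  have t3 : (e / 2) * (∫ z, φ z * rd h v (rd h v u) n z ^ 2) ≤ (e / 2) * (|M| * C3) :=
    mul_le_mul_of_nonneg_left F3 (by positivity)
  have t4 : (1 / (2 * e ^ 5)) * (∫ z, φ z * (g (u n z) * rd h v u n z ^ 2)) ≤
      (1 / (2 * e ^ 5)) * (e ^ 6 * C1) := mul_le_mul_of_nonneg_left F1 (by positivity)
  have t2' : (1 / (2 * e)) * (e ^ 2 * Cθ * C2) = e * (Cθ * C2 / 2) := by field_simp
  have t4' : (1 / (2 * e ^ 5)) * (e ^ 6 * C1) = e * (C1 / 2) := by field_simp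
  rw [t2'] at t2
  rw [t4'] at t4
  linarith

/-- **The main inequality.** -/
theorem main_ineq (hB : IsOpen B) (hp : ∀ n, 0 < h n) (hh : Tendsto h atTop (𝓝 0))
    {u : ℕ → ℂ → ℝ} (hu : ∀ n, ContDiffOn ℝ ∞ (u n) B) (hM : MK2 B h 3 (cx u))
    {φ : ℂ → ℝ} (hφ : TF B φ) (hφ0 : ∀ z, 0 ≤ φ z) {ρ : ℂ → ℝ} (hρ : ContinuousOn ρ B)
    (he : ∀ n, ∀ z ∈ B, rd h 1 (rd h 1 u) n z + rd h I (rd h I u) n z = -(ρ z * u n z)) :
    ∃ C : ℝ, 0 ≤ C ∧ ∀ᶠ n in atTop, ∀ (g : ℝ → ℝ) (e : ℝ), ContDiff ℝ ∞ g → (∀ x, 0 ≤ g x) →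
      (∀ x, g x ≤ 1) → 0 < e → (∀ x, |Pr g x| ≤ e ^ 6) →
      ∫ z, φ z * (g (u n z) * |ρ z * u n z|) ≤ e * C := by
  obtain ⟨C1, C10, E1⟩ := one_dir hB hp hh hu hM hφ hφ0 (v := 1) (Or.inl rfl)
  obtain ⟨C2, C20, E2⟩ := one_dir hB hp hh hu hM hφ hφ0 (v := I) (Or.inr rfl)
  refine ⟨C1 + C2, by positivity, ?_⟩
  filter_upwards [E1, E2] with n E1 E2 g e hg g0 g1 he0 hge
  have F1 := E1 g e hg g0 g1 he0 hge
  have F2 := E2 g e hg g0 g1 he0 hge
  have hSc : IsCompact (tsupport φ) := hφ.2.1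
  have hSB : tsupport φ ⊆ B := hφ.2.2
  have z0 : ∀ z, z ∉ tsupport φ → φ z = 0 := fun z hz => image_eq_zero_of_notMem_tsupport hz
  have cφ : Continuous φ := hφ.1.continuous
  have cu : ContinuousOn (u n) (tsupport φ) := (hu n).continuousOn.mono hSB
  have cg : ContinuousOn (fun z => g (u n z)) (tsupport φ) := hg.continuous.comp_continuousOn cu
  have cY : ∀ v, ContinuousOn (rd h v (rd h v u) n) (tsupport φ) := fun v =>
    (rd_sm hB (rd_sm hB hu v) v n).continuousOn.mono hSB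
  have i0 : Integrable (fun z => φ z * (g (u n z) * |ρ z * u n z|)) :=
    rint hSc (cφ.continuousOn.mul (cg.mul ((hρ.mono hSB).mul cu).abs))
      fun z hz => by rw [z0 z hz, zero_mul]
  have iv : ∀ v, Integrable (fun z => φ z * (g (u n z) * |rd h v (rd h v u) n z|)) := fun v =>
    rint hSc (cφ.continuousOn.mul (cg.mul (cY v).abs)) fun z hz => by rw [z0 z hz, zero_mul]
  have tot := integral_mono i0 ((iv 1).add (iv I)) (fun z => by
    show φ z * (g (u n z) * |ρ z * u n z|) ≤ φ z * (g (u n z) * |rd h 1 (rd h 1 u) n z|) +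
      φ z * (g (u n z) * |rd h I (rd h I u) n z|)
    by_cases hz : z ∈ B
    · have h1 := he n z hz
      have h2 : |ρ z * u n z| ≤ |rd h 1 (rd h 1 u) n z| + |rd h I (rd h I u) n z| := by
        rw [← abs_neg (ρ z * u n z), ← h1]; exact abs_add_le _ _
      have h3 := mul_le_mul_of_nonneg_left h2 (mul_nonneg (hφ0 z) (g0 (u n z)))
      nlinarith
    · rw [z0 z fun h => hz (hSB h)]; simp)
  have ev : ∫ z, ((fun z => φ z * (g (u n z) * |rd h 1 (rd h 1 u) n z|)) +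
      fun z => φ z * (g (u n z) * |rd h I (rd h I u) n z|)) z =
      (∫ z, φ z * (g (u n z) * |rd h 1 (rd h 1 u) n z|)) +
      ∫ z, φ z * (g (u n z) * |rd h I (rd h I u) n z|) := integral_add (iv 1) (iv I)
  rw [ev] at tot
  linarith

end

end Pool.Agent.TH421.AC
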